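import Pool.Agent.Q275.GQ.Stm2

/-!
# Project GQ, job BAD
-/

set_option autoImplicit false

namespace Pool.Agent.Q110.GQ

open Finset Filter Topology MeasureTheory
open Pool.Agent.Q275.GQ
open scoped Classical

theorem run_congr (P : Par) (c : ℤ × ℤ) {w w' : ℕ → ℤ} :
    ∀ K : ℕ, (∀ i < K, w i = w' i) → run P c w K = run P c w' K
  | 0, _ => rfl
  | K + 1, h => by
    simp only [run]
    rw [run_congr P c K (fun i hi => h i (by omega)), h K (by omega)]

theorem run_succ' (P : Par) (c : ℤ × ℤ) (w : ℕ → ℤ) :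
    ∀ K : ℕ, run P c w (K + 1) = run P (stp P c (w 0)) (fun i => w (i + 1)) K
  | 0 => rfl
  | K + 1 => by
    have := run_succ' P c w K
    simp only [run] at this ⊢
    rw [this]

/-- The probability that a random word of length `K` does not lead from `c` to `0`. -/
noncomputable def pp (P : Par) : ℕ → ℤ × ℤ → ℝ
  | 0, c => if c = (0, 0) then 0 else 1
  | K + 1, c => (1 / (P.a0.toNat : ℝ)) * ∑ d ∈ range P.a0.toNat, pp P K (stp P c d)

theorem qpos (P : Par) : (0 : ℝ) < (P.a0.toNat : ℝ) := by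
  have := P.a0_pos
  have h : 0 < P.a0.toNat := by omega
  exact_mod_cast h

theorem qeq (P : Par) : ((P.a0.toNat : ℕ) : ℤ) = P.a0 := Int.toNat_of_nonneg P.a0_pos.le

theorem qeqR (P : Par) : ((P.a0.toNat : ℕ) : ℝ) = (P.a0 : ℝ) := by
  have := qeq P
  exact_mod_cast congrArg (fun z : ℤ => (z : ℝ)) this

theorem pp_nonneg (P : Par) : ∀ (K : ℕ) (c : ℤ × ℤ), 0 ≤ pp P K c
  | 0, c => by simp only [pp]; split_ifs <;> norm_num
  | K + 1, c => by
    simp only [pp]
    exact mul_nonneg (by positivity) (Finset.sum_nonneg fun d _ => pp_nonneg P K _)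

theorem stp_zero (P : Par) {d : ℤ} (h1 : d < P.a0) : stp P (0, 0) d = (0, 0) := by
  have : dig P (0, 0) = 0 := by simp [dig]
  simp [stp, this, h1, A]

theorem pp_zero (P : Par) : ∀ K : ℕ, pp P K (0, 0) = 0
  | 0 => by simp [pp]
  | K + 1 => by
    simp only [pp]
    rw [Finset.sum_eq_zero, mul_zero]
    intro d hd
    rw [Finset.mem_range] at hd
    rw [stp_zero P (by omega), pp_zero P K]

theorem pp_anti (P : Par) : ∀ (K : ℕ) (c : ℤ × ℤ), pp P (K + 1) c ≤ pp P K c
  | 0, c => by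
    by_cases hc : c = (0, 0)
    · rw [hc, pp_zero, pp_zero]
    · have h0 : pp P 0 c = 1 := by simp [pp, hc]
      rw [h0]
      have h1 : ∀ c', pp P 0 c' ≤ 1 := by intro c'; simp only [pp]; split_ifs <;> norm_num
      rw [pp]
      have h2 : ∑ d ∈ range P.a0.toNat, pp P 0 (stp P c d) ≤ P.a0.toNat := by
        calc _ ≤ ∑ d ∈ range P.a0.toNat, (1 : ℝ) := Finset.sum_le_sum fun d _ => h1 _
          _ = _ := by simp
      have h3 := qpos P
      rw [one_div, inv_mul_le_iff₀ h3]
      linarith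
  | K + 1, c => by
    rw [pp, pp]
    exact mul_le_mul_of_nonneg_left (Finset.sum_le_sum fun d _ => pp_anti P K _) (by positivity)

noncomputable def pinf (P : Par) (c : ℤ × ℤ) : ℝ := ⨅ K, pp P K c

theorem pp_tendsto (P : Par) (c : ℤ × ℤ) : Tendsto (fun K => pp P K c) atTop (𝓝 (pinf P c)) :=
  tendsto_atTop_ciInf (antitone_nat_of_succ_le fun K => pp_anti P K c)
    ⟨0, by rintro _ ⟨K, rfl⟩; exact pp_nonneg P K c⟩

theorem pinf_nonneg (P : Par) (c : ℤ × ℤ) : 0 ≤ pinf P c :=
  le_ciInf fun K => pp_nonneg P K c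

theorem pinf_zero (P : Par) : pinf P (0, 0) = 0 := by
  have h := pp_tendsto P (0, 0)
  simp only [pp_zero] at h
  exact tendsto_nhds_unique h tendsto_const_nhds |>.symm ▸ rfl

theorem pinf_harm (P : Par) (c : ℤ × ℤ) :
    ∑ d ∈ range P.a0.toNat, pinf P (stp P c d) = ∑ d ∈ range P.a0.toNat, pinf P c := by
  have h1 : Tendsto (fun K => pp P (K + 1) c) atTop (𝓝 (pinf P c)) :=
    (pp_tendsto P c).comp (tendsto_add_atTop_nat 1)
  have h2 : Tendsto (fun K => pp P (K + 1) c) atTop
      (𝓝 ((1 / (P.a0.toNat : ℝ)) * ∑ d ∈ range P.a0.toNat, pinf P (stp P c d))) := by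
    simp only [pp]
    exact (tendsto_finsetSum _ fun d _ => pp_tendsto P _).const_mul _
  have h3 := tendsto_nhds_unique h1 h2
  have h4 := qpos P
  rw [Finset.sum_const, Finset.card_range, nsmul_eq_mul, h3]
  field_simp

theorem pinf_eq_zero (P : Par) (D : Finset (ℤ × ℤ)) (hD : ∀ c ∈ D, A P c ∈ D ∧ B P c ∈ D)
    (hw : ∀ c ∈ D, ∃ (w : ℕ → ℤ) (k : ℕ), (∀ i, 0 ≤ w i ∧ w i < P.a0) ∧ run P c w k = (0, 0)) :
    ∀ c ∈ D, pinf P c = 0 := by
  intro v hv
  obtain ⟨c₀, hc₀, hmax⟩ := Finset.exists_max_image D (pinf P) ⟨v, hv⟩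
  have hst : ∀ c ∈ D, ∀ d : ℤ, stp P c d ∈ D := by
    intro c hc d
    simp only [stp]
    split_ifs
    · exact (hD c hc).1
    · exact (hD c hc).2
  have key : ∀ (w : ℕ → ℤ), (∀ i, 0 ≤ w i ∧ w i < P.a0) → ∀ k : ℕ,
      run P c₀ w k ∈ D ∧ pinf P (run P c₀ w k) = pinf P c₀ := by
    intro w hw k
    induction k with
    | zero => exact ⟨hc₀, rfl⟩
    | succ k ih =>
      obtain ⟨h1, h2⟩ := ih
      refine ⟨hst _ h1 _, ?_⟩
      have h3 := pinf_harm P (run P c₀ w k)
      have h4 := (Finset.sum_eq_sum_iff_of_le (fun d hd => ?_)).1 h3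
      · have h5 := h4 (w k).toNat (by
          rw [Finset.mem_range]
          have := (hw k).1
          have := (hw k).2
          omega)
        rw [Int.toNat_of_nonneg (hw k).1] at h5
        simp only [run]
        rw [h5, h2]
      · rw [h2]
        exact hmax _ (hst _ h1 _)
  obtain ⟨w, k, hw1, hw2⟩ := hw c₀ hc₀
  have h6 := (key w hw1 k).2
  rw [hw2, pinf_zero] at h6
  have h7 := hmax v hv
  have h8 := pinf_nonneg P v
  linarith

/-- The extension of a finite word. -/
def ext {K q : ℕ} (w : Fin K → Fin q) : ℕ → ℤ := fun i => if h : i < K then ((w ⟨i, h⟩ : ℕ) : ℤ) else 0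

theorem ext_mem (P : Par) {K : ℕ} (w : Fin K → Fin P.a0.toNat) (i : ℕ) :
    0 ≤ ext w i ∧ ext w i < P.a0 := by
  simp only [ext]
  split_ifs with h
  · have := (w ⟨i, h⟩).2
    constructor <;> omega
  · exact ⟨le_refl _, P.a0_pos⟩

theorem sum_words (P : Par) : ∀ (K : ℕ) (c : ℤ × ℤ),
    ∑ w : Fin K → Fin P.a0.toNat, (if run P c (ext w) K = (0, 0) then (0 : ℝ) else 1) =
      (P.a0.toNat : ℝ) ^ K * pp P K c
  | 0, c => by
    by_cases hc : c = (0, 0) <;> simp [run, pp, hc]
  | K + 1, c => by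
    rw [← (Fin.consEquiv (fun _ => Fin P.a0.toNat)).sum_comp, Fintype.sum_prod_type]
    have h1 : ∀ (d : Fin P.a0.toNat) (w : Fin K → Fin P.a0.toNat),
        run P c (ext ((Fin.consEquiv (fun _ => Fin P.a0.toNat)) (d, w))) (K + 1) =
          run P (stp P c (d : ℕ)) (ext w) K := by
      intro d w
      rw [run_succ']
      have h2 : ext ((Fin.consEquiv (fun _ => Fin P.a0.toNat)) (d, w)) 0 = ((d : ℕ) : ℤ) := by
        simp [ext, Fin.consEquiv]
      rw [h2]
      apply run_congr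
      intro i hi
      have h3 : (⟨i + 1, by omega⟩ : Fin (K + 1)) = Fin.succ ⟨i, hi⟩ := rfl
      simp only [ext, Fin.consEquiv, Equiv.coe_fn_mk]
      rw [dif_pos (by omega : i + 1 < K + 1), dif_pos hi, h3, Fin.cons_succ]
    simp only [h1]
    rw [pp]
    have h4 := qpos P
    have h5 : (P.a0.toNat : ℝ) ^ (K + 1) * ((1 / (P.a0.toNat : ℝ)) *
        ∑ d ∈ range P.a0.toNat, pp P K (stp P c d)) =
        ∑ d ∈ range P.a0.toNat, (P.a0.toNat : ℝ) ^ K * pp P K (stp P c d) := by
      rw [← Finset.mul_sum, pow_succ]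
      field_simp
    rw [h5, Finset.sum_range]
    exact Finset.sum_congr rfl fun d _ => sum_words P K _

theorem card_bad (h1 : S_RUN) (h4 : S_CNT) (P : Par) (K : ℕ) (v : ℤ × ℤ) :
    (((box P K).filter (fun M => (A P)^[K] (M + v) ≠ (A P)^[K] M)).card : ℝ) =
      (P.a0 : ℝ) ^ (2 * K) * pp P K v := by
  have hdig : ∀ n, (dig P n).toNat < P.a0.toNat := by
    intro n
    have := dig_nonneg P n
    have := dig_lt P n
    omega
  let W : ℤ × ℤ → (Fin K → Fin P.a0.toNat) := fun M i => ⟨(dig P ((A P)^[(i : ℕ)] M)).toNat, hdig _⟩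
  have hW : ∀ M w, W M = w ↔ ∀ i < K, dig P ((A P)^[i] M) = ext w i := by
    intro M w
    constructor
    · rintro rfl i hi
      simp only [ext, hi, dif_pos, W]
      rw [Int.toNat_of_nonneg (dig_nonneg P _)]
    · intro h
      funext i
      apply Fin.ext
      have h5 := h i i.2
      simp only [ext, i.2, dif_pos] at h5
      simp only [W]
      rw [h5]
      simp
  have h5 := Finset.card_eq_sum_card_fiberwise (f := W) (t := Finset.univ)
    (s := (box P K).filter (fun M => (A P)^[K] (M + v) ≠ (A P)^[K] M))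
    (fun _ _ => Finset.mem_coe.2 (Finset.mem_univ _))
  have h6 : ∀ w : Fin K → Fin P.a0.toNat,
      ((((box P K).filter (fun M => (A P)^[K] (M + v) ≠ (A P)^[K] M)).filter
        (fun M => W M = w)).card : ℝ) =
        (P.a0.toNat : ℝ) ^ K * (if run P v (ext w) K = (0, 0) then (0 : ℝ) else 1) := by
    intro w
    split_ifs with h
    · rw [mul_zero, Nat.cast_eq_zero, Finset.card_eq_zero, Finset.filter_eq_empty_iff]
      intro M hM hMw
      rw [Finset.mem_filter] at hM
      apply hM.2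
      rw [h1 P M v (ext w) K ((hW M w).1 hMw), h]
      exact add_zero _
    · rw [mul_one]
      have h7 := h4 P K (ext w) (ext_mem P w)
      have h8 : ((box P K).filter (fun M => (A P)^[K] (M + v) ≠ (A P)^[K] M)).filter
          (fun M => W M = w) =
          (box P K).filter (fun M => ∀ i < K, dig P ((A P)^[i] M) = ext w i) := by
        ext M
        simp only [Finset.mem_filter]
        constructor
        · rintro ⟨⟨a, _⟩, b⟩
          exact ⟨a, (hW M w).1 b⟩
        · rintro ⟨a, b⟩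
          refine ⟨⟨a, ?_⟩, (hW M w).2 b⟩
          rw [h1 P M v (ext w) K b]
          intro h9
          exact h (add_eq_left.1 h9)
      rw [h8, qeqR]
      have h10 := congrArg (fun z : ℤ => (z : ℝ)) h7
      push_cast at h10
      exact h10
  rw [h5]
  push_cast
  rw [Finset.sum_congr rfl fun w _ => h6 w, ← Finset.mul_sum, sum_words, ← mul_assoc, ← pow_add, qeqR,
    two_mul]

/-- JOB BAD. -/
theorem bad : S_RUN → S_DR → S_ABW → S_CNT → S_BAD := by
  intro h1 h2 h3 h4 P v ε hε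
  obtain ⟨D, hv, hD⟩ := h2 P v
  have h5 := pinf_eq_zero P D hD (h3 P D hD) v hv
  have h6 := pp_tendsto P v
  rw [h5] at h6
  have h7 := (h6.eventually (gt_mem_nhds hε)).exists_forall_of_atTop
  obtain ⟨K₀, hK⟩ := h7
  refine ⟨K₀, fun K hK' => ?_⟩
  rw [card_bad h1 h4, mul_comm]
  exact mul_le_mul_of_nonneg_right (hK K hK').le (by
    have := P.a0_pos
    have : (0 : ℝ) < P.a0 := by exact_mod_cast this
    positivity)

end Pool.Agent.Q110.GQ
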