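import Pool.Agent.Q275.GQ.Stm2

/-!
# Project GQ, job FRU
-/

set_option autoImplicit false

namespace Pool.Agent.Q110.GQ.FR

open Finset Filter Topology MeasureTheory
open Pool.Agent.Q275.GQ
open scoped Classical

theorem anc (P : Par) (ν : ℕ → ℤ × ℤ) (hν : ∀ n, A P (ν (n + 1)) = ν n) :
    ∀ m n : ℕ, (A P)^[m] (ν (n + m)) = ν n
  | 0, n => rfl
  | m + 1, n => by
    rw [Function.iterate_succ_apply, ← add_assoc, hν, anc P ν hν m n]

/-- From the frequencies of `g` to an upper bound. -/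
theorem upper (g : ℕ → ℝ) (F F' : ℝ) (s : ℕ) (h : Tendsto (fun N : ℕ => g N / N) atTop (𝓝 F))
    (hF : F < F') : ∃ N₀ : ℕ, ∀ N : ℕ, N₀ ≤ N → g (N + s) ≤ F' * N := by
  have h1 : Tendsto (fun N : ℕ => g (N + s) / ((N + s : ℕ) : ℝ)) atTop (𝓝 F) :=
    h.comp (tendsto_add_atTop_nat s)
  have h2 : Tendsto (fun N : ℕ => (1 : ℝ) + (s : ℝ) / (N : ℝ)) atTop (𝓝 (1 + 0)) :=
    tendsto_const_nhds.add (tendsto_const_div_atTop_nhds_zero_nat _)
  have h3 := h1.mul h2
  rw [add_zero, mul_one] at h3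
  have h4 := (h3.eventually (gt_mem_nhds hF)).and (eventually_gt_atTop 0)
  obtain ⟨N₀, hN⟩ := h4.exists_forall_of_atTop
  refine ⟨N₀, fun N hN' => ?_⟩
  obtain ⟨h5, h6⟩ := hN N hN'
  have h7 : (0 : ℝ) < N := by exact_mod_cast h6
  have h8 : g (N + s) / ((N + s : ℕ) : ℝ) * (1 + (s : ℝ) / (N : ℝ)) = g (N + s) / N := by
    have : (0 : ℝ) < ((N + s : ℕ) : ℝ) := by push_cast; positivity
    have h9 : ((N + s : ℕ) : ℝ) = (N : ℝ) + s := by push_cast; ring
    rw [h9] at this ⊢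
    field_simp
  rw [h8, div_lt_iff₀ h7] at h5
  exact h5.le

theorem qpow (P : Par) (K : ℕ) : (((P.a0.toNat ^ K : ℕ) : ℤ)) = P.a0 ^ K := by
  push_cast
  rw [Int.toNat_of_nonneg P.a0_pos.le]

theorem qpowR (P : Par) (K : ℕ) : (((P.a0.toNat ^ K : ℕ) : ℝ)) = (P.a0 : ℝ) ^ K := by
  have := congrArg (fun z : ℤ => (z : ℝ)) (qpow P K)
  push_cast at this ⊢
  exact this

/-- Equidistribution modulo `a0 ^ K`. -/
theorem equi (P : Par) (y : ℂ) (hy : Equi P y) (K : ℕ) (Z : Set (ℤ × ℤ))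
    (hZ : ∀ M u : ℤ × ℤ, M + (P.a0 ^ K * u.1, P.a0 ^ K * u.2) ∈ Z ↔ M ∈ Z) :
    Tendsto (fun N : ℕ => (((range N).filter (fun i => M0 P (P.α ^ i * y) ∈ Z)).card : ℝ) / N) atTop
      (𝓝 (((box P K).filter (fun m => m ∈ Z)).card / (P.a0 : ℝ) ^ (2 * K))) := by
  have hq : 0 < P.a0.toNat := by have := P.a0_pos; omega
  have h := hy (P.a0.toNat ^ K) (by positivity) Z (by
    intro m
    rw [qpow, ← hZ (m.1 % P.a0 ^ K, m.2 % P.a0 ^ K) (m.1 / P.a0 ^ K, m.2 / P.a0 ^ K)]
    have : (m.1 % P.a0 ^ K, m.2 % P.a0 ^ K) + (P.a0 ^ K * (m.1 / P.a0 ^ K, m.2 / P.a0 ^ K).1,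
        P.a0 ^ K * (m.1 / P.a0 ^ K, m.2 / P.a0 ^ K).2) = m := by
      refine Prod.ext ?_ ?_
      · simp only [Prod.fst_add]; exact Int.emod_add_mul_ediv _ _
      · simp only [Prod.snd_add]; exact Int.emod_add_mul_ediv _ _
    rw [this])
  rw [qpow, qpowR] at h
  rw [mul_comm 2 K, pow_mul]
  exact h

/-- JOB FRU. -/
theorem fru : S_CW → S_BAD → S_FRU := by
  intro hcw hbad P y hy ν V c hA hdig hV l w hw ε hε
  have ha : (0 : ℝ) < P.a0 := by exact_mod_cast P.a0_pos
  -- the choice of `J`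
  have h1 : ∀ v : ℤ × ℤ, ∃ K₀ : ℕ, ∀ K : ℕ, K₀ ≤ K →
    (((box P K).filter (fun M => (A P)^[K] (M + v) ≠ (A P)^[K] M)).card : ℝ) ≤
      (ε / (2 * (V.card + 1))) * (P.a0 : ℝ) ^ (2 * K) := fun v => hbad P v _ (by positivity)
  choose K₀ hK₀ using h1
  set j := V.sup K₀ with hj
  set J := j + 1 with hJ
  set w' : ℕ → ℤ := fun i => if i < l then (w (l - 1 - i) : ℤ) else 0 with hw'
  have hw'1 : ∀ i, 0 ≤ w' i ∧ w' i < P.a0 := by
    intro i
    simp only [hw']
    split_ifs with hi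
    · exact ⟨by positivity, hw _ (by omega)⟩
    · exact ⟨le_refl _, P.a0_pos⟩
  obtain ⟨Z0, hZ0⟩ : ∃ Z0 : Set (ℤ × ℤ), Z0 = {M | ∀ i < l, dig P ((A P)^[J + i] M) = w' i} :=
    ⟨_, rfl⟩
  obtain ⟨Zv, hZv⟩ : ∃ Zv : ℤ × ℤ → Set (ℤ × ℤ),
      Zv = fun v => {M | (A P)^[J] (M + v) ≠ (A P)^[J] M} := ⟨_, rfl⟩
  have e0 := equi P y hy (J + l) Z0 (by
    intro M u
    simp only [hZ0, Set.mem_ofPred_eq]
    refine forall_congr' fun i => forall_congr' fun hi => ?_
    rw [dig_add P (by omega : J + i < J + l)])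
  have ev := fun v => equi P y hy J (Zv v) (by
    intro M u
    simp only [hZv, Set.mem_ofPred_eq]
    rw [show M + (P.a0 ^ J * u.1, P.a0 ^ J * u.2) + v = (M + v) + (P.a0 ^ J * u.1, P.a0 ^ J * u.2) by
      abel, iter_add, iter_add]
    simp)
  -- the limit of the upper bound
  have etot := e0.add (tendsto_finsetSum V fun v _ => ev v)
  set g : ℕ → ℝ := fun N => (((range N).filter (fun i => M0 P (P.α ^ i * y) ∈ Z0)).card : ℝ) +
    ∑ v ∈ V, (((range N).filter (fun i => M0 P (P.α ^ i * y) ∈ Zv v)).card : ℝ) with hg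
  have hg1 : ∀ N : ℕ, g N / N = (((range N).filter (fun i => M0 P (P.α ^ i * y) ∈ Z0)).card : ℝ) / N +
    ∑ v ∈ V, (((range N).filter (fun i => M0 P (P.α ^ i * y) ∈ Zv v)).card : ℝ) / N := by
    intro N
    simp only [hg]
    rw [add_div, Finset.sum_div]
  replace etot := etot.congr (fun N => (hg1 N).symm)
  have hF : ((((box P (J + l)).filter (fun m => m ∈ Z0)).card : ℝ) / (P.a0 : ℝ) ^ (2 * (J + l)) +
      ∑ v ∈ V, (((box P J).filter (fun m => m ∈ Zv v)).card : ℝ) / (P.a0 : ℝ) ^ (2 * J)) <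
      1 / (P.a0 : ℝ) ^ l + ε := by
    have h2 : (((box P (J + l)).filter (fun m => m ∈ Z0)).card : ℝ) / (P.a0 : ℝ) ^ (2 * (J + l)) =
        1 / (P.a0 : ℝ) ^ l := by
      have h3 := hcw P J l w' hw'1
      have h4 := congrArg (fun z : ℤ => (z : ℝ)) h3
      push_cast at h4
      have h5 : (((box P (J + l)).filter (fun m => m ∈ Z0)).card : ℝ) = (P.a0 : ℝ) ^ (J + (J + l)) := by
        rw [← h4, Nat.cast_inj]
        apply congrArg
        ext M
        simp only [Finset.mem_filter, hZ0, Set.mem_ofPred_eq]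
      rw [h5, div_eq_div_iff (by positivity) (by positivity), ← pow_add]
      rw [one_mul]
      congr 1
      ring
    have h3 : ∀ v ∈ V, (((box P J).filter (fun m => m ∈ Zv v)).card : ℝ) / (P.a0 : ℝ) ^ (2 * J) ≤
        ε / (2 * (V.card + 1)) := by
      intro v hv
      rw [div_le_iff₀ (by positivity)]
      have h4 : K₀ v ≤ J := (Finset.le_sup (f := K₀) hv).trans (by omega)
      refine le_trans (le_of_eq ?_) (hK₀ v J h4)
      rw [Nat.cast_inj]
      apply congrArg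
      ext M
      simp only [Finset.mem_filter, hZv, Set.mem_ofPred_eq]
    have h4 := Finset.sum_le_sum h3
    rw [Finset.sum_const, nsmul_eq_mul] at h4
    have h5 : (V.card : ℝ) * (ε / (2 * (V.card + 1))) < ε := by
      have : (0 : ℝ) ≤ V.card := by positivity
      rw [← mul_div_assoc, div_lt_iff₀ (by positivity)]
      nlinarith
    rw [h2]
    linarith
  obtain ⟨N₀, hN₀⟩ := upper g _ _ (l + j) etot hF
  refine ⟨N₀, fun N hN => le_trans ?_ (hN₀ N hN)⟩
  -- the counting inequality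
  have hsub : ((range N).filter (fun t => ∀ i < l, c (t + i) = w i)).image (fun t => t + (l + j)) ⊆
      ((range (N + (l + j))).filter (fun i => M0 P (P.α ^ i * y) ∈ Z0)) ∪
        V.biUnion (fun v => (range (N + (l + j))).filter (fun i => M0 P (P.α ^ i * y) ∈ Zv v)) := by
    intro n hn
    rw [Finset.mem_image] at hn
    obtain ⟨t, ht, rfl⟩ := hn
    rw [Finset.mem_filter, Finset.mem_range] at ht
    obtain ⟨ht1, ht2⟩ := ht
    rw [Finset.mem_union, Finset.mem_filter, Finset.mem_range, Finset.mem_biUnion]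
    set M := M0 P (P.α ^ (t + (l + j)) * y) with hM
    set v := ν (t + (l + j)) - M with hv
    have hvV : v ∈ V := hV _
    have hνM : ν (t + (l + j)) = M + v := by rw [hv]; abel
    by_cases hz : M ∈ Zv v
    · right
      refine ⟨v, hvV, ?_⟩
      rw [Finset.mem_filter, Finset.mem_range]
      exact ⟨by omega, hz⟩
    · left
      refine ⟨by omega, ?_⟩
      simp only [hZv, Set.mem_ofPred_eq, not_not] at hz
      simp only [hZ0, Set.mem_ofPred_eq]
      intro i hi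
      rw [add_comm J i, Function.iterate_add_apply, ← hz, ← hνM, ← Function.iterate_add_apply]
      have h2 : t + (l + j) = (t + (l - 1 - i)) + (i + J) := by omega
      rw [h2, anc P ν hA, hdig, ht2 _ (by omega)]
      simp only [hw', hi, if_true]
  have h3 := Finset.card_le_card hsub
  rw [Finset.card_image_of_injective _ (fun a b hab => by simpa using hab)] at h3
  have h4 := h3.trans (Finset.card_union_le _ _)
  have h5 := Finset.card_biUnion_le (s := V)
    (t := fun v => (range (N + (l + j))).filter (fun i => M0 P (P.α ^ i * y) ∈ Zv v))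
  have h6 := h4.trans (Nat.add_le_add_left h5 _)
  simp only [hg]
  exact_mod_cast h6

end Pool.Agent.Q110.GQ.FR
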