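import Pool.Agent.Q275.GQ.Stm

/-!
# Project GQ, job MIN
-/

set_option autoImplicit false

namespace Pool.Agent.Q110.GQ

open Finset Filter Topology MeasureTheory
open Pool.Agent.Q275.GQ
open scoped Classical

theorem e_zero : e 0 = 1 := by simp [e]

theorem e_add (x y : ℝ) : e (x + y) = e x * e y := by
  simp only [e]
  rw [← Complex.exp_add]
  congr 1
  push_cast
  ring

theorem e_nat_mul (d : ℕ) (x : ℝ) : e (d * x) = e x ^ d := by
  simp only [e]
  rw [← Complex.exp_nat_mul]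
  congr 1
  push_cast
  ring

theorem e_eq_one_iff (x : ℝ) : e x = 1 ↔ ∃ n : ℤ, x = n := by
  simp only [e]
  rw [Complex.exp_eq_one_iff]
  constructor
  · rintro ⟨n, hn⟩
    refine ⟨n, ?_⟩
    have h1 : (2 * (Real.pi : ℂ) * Complex.I) * ((x : ℂ) - n) = 0 := by linear_combination hn
    have h2 : (2 * (Real.pi : ℂ) * Complex.I) ≠ 0 := Complex.two_pi_I_ne_zero
    have h3 : (x : ℂ) - n = 0 := (mul_eq_zero.1 h1).resolve_left h2
    have h4 : (x : ℂ) = ((n : ℝ) : ℂ) := by push_cast; linear_combination h3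
    exact_mod_cast h4
  · rintro ⟨n, hn⟩
    refine ⟨n, ?_⟩
    rw [hn]
    push_cast
    ring

theorem e_int (n : ℤ) : e n = 1 := (e_eq_one_iff _).2 ⟨n, rfl⟩

theorem e_cont : Continuous e := by
  unfold e
  fun_prop

/-- The trigonometric polynomial. -/
noncomputable def FF (C : Finset (ℤ × ℤ)) (π : ℤ × ℤ → ℝ) (τ : ℝ × ℝ) : ℂ :=
  ∑ c ∈ C, (π c : ℂ) * e (c.1 * τ.1 + c.2 * τ.2)

theorem FF_cont (C : Finset (ℤ × ℤ)) (π : ℤ × ℤ → ℝ) : Continuous (FF C π) := by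
  unfold FF
  refine continuous_finsetSum _ fun c _ => continuous_const.mul (e_cont.comp ?_)
  fun_prop

theorem FF_per (C : Finset (ℤ × ℤ)) (π : ℤ × ℤ → ℝ) (τ : ℝ × ℝ) (m n : ℤ) :
    FF C π (τ.1 + m, τ.2 + n) = FF C π τ := by
  unfold FF
  refine Finset.sum_congr rfl fun c _ => ?_
  have : (c.1 : ℝ) * (τ.1 + m) + c.2 * (τ.2 + n) = (c.1 * τ.1 + c.2 * τ.2) +
      ((c.1 * m + c.2 * n : ℤ) : ℝ) := by push_cast; ring
  simp only [this]
  rw [e_add, e_int, mul_one]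

theorem FF_eq (h2 : S_KEY) (P : Par) (C : Finset (ℤ × ℤ)) (π : ℤ × ℤ → ℝ)
    (hπ : ∀ h : ℤ × ℤ → ℂ,
      ∑ c ∈ C, (π c : ℂ) * (((1 - dig P c / P.a0 : ℝ) : ℂ) * h (A P c) +
        ((dig P c / P.a0 : ℝ) : ℂ) * h (B P c)) = ∑ c ∈ C, (π c : ℂ) * h c) (s t : ℝ) :
    FF C π (s, t) = ∑ i ∈ range P.a0.toNat, ((‖mm P ((i - t) / P.a0)‖ ^ 2 : ℝ) : ℂ) *
      FF C π (P.a2 * ((i - t) / P.a0), s + P.a1 * ((i - t) / P.a0)) := by
  have h := hπ (fun c => e (c.1 * s + c.2 * t))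
  unfold FF
  simp only at h ⊢
  rw [← h]
  simp only [Finset.mul_sum]
  rw [Finset.sum_comm]
  refine Finset.sum_congr rfl fun c _ => ?_
  have h3 := h2 P c.1 c.2 s t
  rw [← h3, Finset.mul_sum]
  refine Finset.sum_congr rfl fun i _ => ?_
  ring

theorem sum_w (h2 : S_KEY) (P : Par) (t : ℝ) :
    ∑ i ∈ range P.a0.toNat, ‖mm P ((i - t) / P.a0)‖ ^ 2 = 1 := by
  have h3 := h2 P 0 0 0 t
  have h4 : dig P (0, 0) = 0 := by simp [dig]
  have h5 : A P (0, 0) = (0, 0) := by simp [A]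
  rw [h4, h5] at h3
  simp [e_zero] at h3
  have h6 : ((∑ i ∈ range P.a0.toNat, ‖mm P ((i - t) / P.a0)‖ ^ 2 : ℝ) : ℂ) = ((1 : ℝ) : ℂ) := by
    push_cast
    exact h3
  exact_mod_cast h6

theorem mm_ne (P : Par) (t : ℝ) (ht : ∀ j : ℤ, t = j → P.a0 ∣ j) : mm P ((0 - t) / P.a0) ≠ 0 := by
  have ha : (0 : ℝ) < P.a0 := by exact_mod_cast P.a0_pos
  have hq : ((P.a0.toNat : ℕ) : ℤ) = P.a0 := Int.toNat_of_nonneg P.a0_pos.le
  have hqR : ((P.a0.toNat : ℕ) : ℝ) = (P.a0 : ℝ) := by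
    exact_mod_cast congrArg (fun z : ℤ => (z : ℝ)) hq
  have haC : (P.a0 : ℂ) ≠ 0 := by
    have : P.a0 ≠ 0 := P.a0_pos.ne'
    exact_mod_cast this
  unfold mm
  refine mul_ne_zero (by simpa using haC) ?_
  simp only [e_nat_mul]
  by_cases hz : e ((0 - t) / P.a0) = 1
  · rw [hz]
    simp only [one_pow, Finset.sum_const, Finset.card_range, nsmul_eq_mul, mul_one]
    have : P.a0.toNat ≠ 0 := by have := P.a0_pos; omega
    exact_mod_cast this
  · rw [geom_sum_eq hz]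
    refine div_ne_zero ?_ (sub_ne_zero.2 hz)
    rw [← e_nat_mul]
    intro h
    have h1 : e (P.a0.toNat * ((0 - t) / P.a0)) = 1 := by linear_combination h
    obtain ⟨n, hn⟩ := (e_eq_one_iff _).1 h1
    rw [hqR] at hn
    have h2 : t = ((-n : ℤ) : ℝ) := by
      have : (P.a0 : ℝ) * ((0 - t) / P.a0) = - t := by field_simp; ring
      rw [this] at hn
      push_cast
      linarith
    obtain ⟨k, hk⟩ := ht (-n) h2
    apply hz
    rw [e_eq_one_iff]
    refine ⟨-k, ?_⟩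
    have h3 : t = P.a0 * k := by rw [h2, hk]; push_cast; ring
    rw [h3]
    push_cast
    field_simp
    ring

/-- JOB MIN. -/
theorem min : S_STAT → S_KEY → S_NC → S_MIN := by
  intro h1 h2 h3 P C hC hcl h0
  obtain ⟨π, hne, hπ⟩ := h1 P C hC hcl
  obtain ⟨s₀, t₀, hst⟩ := h3 C π hne h0
  have hF0 : FF C π (0, 0) = ∑ c ∈ C, (π c : ℂ) := by
    simp [FF, e_zero]
  have hst' : FF C π (s₀, t₀) - FF C π (0, 0) ≠ 0 := by
    rw [hF0, sub_ne_zero]
    exact hst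
  set ζ : ℂ := -(starRingEnd ℂ) (FF C π (s₀, t₀) - FF C π (0, 0)) with hζ
  set g : ℝ × ℝ → ℝ := fun τ => (ζ * FF C π τ).re with hg
  have hgc : Continuous g := Complex.continuous_re.comp (continuous_const.mul (FF_cont C π))
  have hgp : ∀ τ : ℝ × ℝ, ∀ m n : ℤ, g (τ.1 + m, τ.2 + n) = g τ := by
    intro τ m n
    simp only [hg]
    rw [FF_per]
  have hlt : g (s₀, t₀) < g (0, 0) := by
    have h5 : g (s₀, t₀) - g (0, 0) = - Complex.normSq (FF C π (s₀, t₀) - FF C π (0, 0)) := by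
      simp only [hg]
      rw [← Complex.sub_re, ← mul_sub, hζ, neg_mul, ← Complex.normSq_eq_conj_mul_self]
      simp
    have h6 := Complex.normSq_pos.2 hst'
    linarith
  have hcomp : IsCompact ((Set.Icc (0 : ℝ) 1) ×ˢ (Set.Icc (0 : ℝ) 1)) := isCompact_Icc.prod isCompact_Icc
  obtain ⟨τm, hτm, hmin'⟩ := hcomp.exists_isMinOn ⟨(0, 0), by simp⟩ hgc.continuousOn
  have hmin : ∀ τ, g τm ≤ g τ := by
    intro τ
    have h7 := hgp (Int.fract τ.1, Int.fract τ.2) ⌊τ.1⌋ ⌊τ.2⌋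
    simp only [Int.fract_add_floor] at h7
    rw [show g τ = g (τ.1, τ.2) from rfl, h7]
    apply hmin'
    exact ⟨⟨Int.fract_nonneg _, (Int.fract_lt_one _).le⟩, ⟨Int.fract_nonneg _, (Int.fract_lt_one _).le⟩⟩
  have heq : ∀ s t : ℝ, g (s, t) = ∑ i ∈ range P.a0.toNat, ‖mm P ((i - t) / P.a0)‖ ^ 2 *
      g (P.a2 * ((i - t) / P.a0), s + P.a1 * ((i - t) / P.a0)) := by
    intro s t
    simp only [hg]
    rw [FF_eq h2 P C π hπ s t, Finset.mul_sum, Complex.re_sum]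
    refine Finset.sum_congr rfl fun i _ => ?_
    rw [mul_left_comm, Complex.re_ofReal_mul]
  refine ⟨{τ | g τ = g τm}, ⟨isClosed_eq hgc continuous_const, ⟨τm, rfl⟩, ?_, ?_, ?_⟩⟩
  · intro h
    have h8 : g (0, 0) = g τm := h
    have := hmin (s₀, t₀)
    linarith
  · intro τ hτ m n
    show g _ = _
    rw [hgp]
    exact hτ
  · intro τ hτ hj
    have h9 : g τ = g τm := hτ
    have h10 := heq τ.1 τ.2
    have h11 := sum_w h2 P τ.2
    have h12 : ∑ i ∈ range P.a0.toNat, ‖mm P ((i - τ.2) / P.a0)‖ ^ 2 *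
      (g (P.a2 * ((i - τ.2) / P.a0), τ.1 + P.a1 * ((i - τ.2) / P.a0)) - g τm) = 0 := by
      simp only [mul_sub]
      rw [Finset.sum_sub_distrib, ← h10, ← Finset.sum_mul, h11, one_mul]
      exact sub_eq_zero.2 h9
    rw [Finset.sum_eq_zero_iff_of_nonneg (fun i _ =>
      mul_nonneg (by positivity) (sub_nonneg.2 (hmin _)))] at h12
    have h13 := h12 0 (by rw [Finset.mem_range]; have := P.a0_pos; omega)
    rw [Nat.cast_zero] at h13
    rcases mul_eq_zero.1 h13 with h14 | h14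
    · exfalso
      exact mm_ne P τ.2 hj (by simpa using h14)
    · show g _ = g τm
      rw [← sub_eq_zero.1 h14]
      congr 1
      simp only [T]
      refine Prod.ext ?_ ?_
      · simp only; ring
      · simp only; ring

end Pool.Agent.Q110.GQ
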